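import Mathlib

/-!
Cut locus and separating set of a point for a Riemannian metric on a real normed space `E`
(a manifold with one global chart; tangent spaces are identified with `E`).
-/

open Set Filter Topology
open scoped ENNReal NNReal

namespace Pool.Agent.MP_402458_gt

variable {E : Type} [NormedAddCommGroup E] [NormedSpace ℝ E]

/-- `g` is a smooth Riemannian metric on `E`. -/
def IsRiemannianMetric (g : E → E →L[ℝ] E →L[ℝ] ℝ) : Prop :=
  ContDiff ℝ ((⊤ : ℕ∞) : WithTop ℕ∞) g ∧ (∀ x v w, g x v w = g x w v) ∧ ∀ x v, v ≠ 0 → 0 < g x v v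

/-- The Riemannian distance: infimum of the lengths of `C^1` curves from `p` to `q`. -/
noncomputable def riemDist (g : E → E →L[ℝ] E →L[ℝ] ℝ) (p q : E) : ℝ :=
  sInf {L | ∃ c : ℝ → E, ContDiff ℝ 1 c ∧ c 0 = p ∧ c 1 = q ∧
    L = ∫ t in (0 : ℝ)..1, √(g (c t) (deriv c t) (deriv c t))}

/-- The geodesic equation of the Levi-Civita connection, index lowered:
`g(γ'' + Γ(γ', γ'), w) = 0` with `g(Γ(v, v), w) = (D_v g)(v, w) - (1/2) (D_w g)(v, v)`. -/
def IsGeodesic (g : E → E →L[ℝ] E →L[ℝ] ℝ) (γ : ℝ → E) : Prop :=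
  ContDiff ℝ 2 γ ∧ ∀ (t : ℝ) (w : E),
    g (γ t) (deriv (deriv γ) t) w + fderiv ℝ g (γ t) (deriv γ t) (deriv γ t) w
      - (1 / 2) * fderiv ℝ g (γ t) w (deriv γ t) (deriv γ t) = 0

/-- Completeness, both forms: Cauchy sequences of the Riemannian distance converge, and each
initial condition has exactly one geodesic defined on all of `ℝ`. -/
def IsCompleteMetric (g : E → E →L[ℝ] E →L[ℝ] ℝ) : Prop :=
  (∀ u : ℕ → E, (∀ ε > 0, ∃ N, ∀ m ≥ N, ∀ n ≥ N, riemDist g (u m) (u n) < ε) →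
    ∃ x, Tendsto u atTop (𝓝 x)) ∧
  ∀ p v : E, ∃! γ : ℝ → E, IsGeodesic g γ ∧ γ 0 = p ∧ deriv γ 0 = v

/-- The exponential map at `p`: the time-one point of the geodesic with initial data `(p, v)`. -/
noncomputable def expMap (g : E → E →L[ℝ] E →L[ℝ] ℝ) (p v : E) : E :=
  Classical.epsilon (fun γ : ℝ → E => IsGeodesic g γ ∧ γ 0 = p ∧ deriv γ 0 = v) 1

/-- The cut time `ρ(v) = sup {t : d(p, exp_p (t v)) = t}`. -/
noncomputable def cutTime (g : E → E →L[ℝ] E →L[ℝ] ℝ) (p v : E) : ℝ≥0∞ :=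
  ⨆ t ∈ {t : ℝ≥0 | riemDist g p (expMap g p ((t : ℝ) • v)) = t}, (t : ℝ≥0∞)

/-- The tangent cut locus `{ρ(v) v : v unit, ρ(v) finite}` of the point `p`. -/
def tangentCutLocus (g : E → E →L[ℝ] E →L[ℝ] ℝ) (p : E) : Set E :=
  {u | ∃ v, g p v v = 1 ∧ cutTime g p v < ⊤ ∧ u = (cutTime g p v).toReal • v}

/-- The cut locus of `p`. -/
def cutLocus (g : E → E →L[ℝ] E →L[ℝ] ℝ) (p : E) : Set E :=
  expMap g p '' tangentCutLocus g p

/-- `γ` restricted to `[0, l]` is a segment from `p`: a unit-speed geodesic starting at `p` with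
`d(p, γ l) = l`. -/
def IsSegment (g : E → E →L[ℝ] E →L[ℝ] ℝ) (p : E) (γ : ℝ → E) (l : ℝ) : Prop :=
  IsGeodesic g γ ∧ (∀ t, g (γ t) (deriv γ t) (deriv γ t) = 1) ∧ γ 0 = p ∧ 0 ≤ l ∧
    riemDist g p (γ l) = l

/-- The separating set: points joined to `p` by at least two distinct segments. -/
def separatingSet (g : E → E →L[ℝ] E →L[ℝ] ℝ) (p : E) : Set E :=
  {q | ∃ (γ₁ γ₂ : ℝ → E) (l : ℝ), IsSegment g p γ₁ l ∧ IsSegment g p γ₂ l ∧
    γ₁ l = q ∧ γ₂ l = q ∧ ¬ EqOn γ₁ γ₂ (Icc 0 l)}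

/-- The tangent separating set. -/
def tangentSeparatingSet (g : E → E →L[ℝ] E →L[ℝ] ℝ) (p : E) : Set E :=
  {u | u ∈ tangentCutLocus g p ∧ expMap g p u ∈ separatingSet g p}

end Pool.Agent.MP_402458_gt
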