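import Mathlib

/-! General ODE facts: uniqueness for `C^1` fields, and global existence for second order
equations with a conserved coercive energy. -/

open Set Filter Topology Metric
open scoped NNReal

namespace Pool.Agent.MP_402458_gt

section

variable {V : Type} [NormedAddCommGroup V] [NormedSpace ℝ V] [FiniteDimensional ℝ V]

omit [FiniteDimensional ℝ V] in
lemma ode_unique_Ioo {X : V → V} (hX : ContDiff ℝ 1 X) {α β : ℝ → V} {a b t₀ : ℝ}
    (ht₀ : t₀ ∈ Ioo a b)
    (hα : ∀ t ∈ Ioo a b, HasDerivAt α (X (α t)) t) (hβ : ∀ t ∈ Ioo a b, HasDerivAt β (X (β t)) t)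
    (h0 : α t₀ = β t₀) : EqOn α β (Ioo a b) := by
  intro t ht
  obtain ⟨a', ha', ha''⟩ := exists_between (lt_min ht.1 ht₀.1)
  obtain ⟨b', hb', hb''⟩ := exists_between (max_lt ht.2 ht₀.2)
  have hsub : Icc a' b' ⊆ Ioo a b := fun s hs => ⟨lt_of_lt_of_le ha' hs.1, lt_of_le_of_lt hs.2 hb''⟩
  have hαc : ContinuousOn α (Icc a' b') := fun s hs =>
    (hα s (hsub hs)).continuousAt.continuousWithinAt
  have hβc : ContinuousOn β (Icc a' b') := fun s hs =>
    (hβ s (hsub hs)).continuousAt.continuousWithinAt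
  have hK : IsCompact (α '' Icc a' b' ∪ β '' Icc a' b') :=
    (isCompact_Icc.image_of_continuousOn hαc).union (isCompact_Icc.image_of_continuousOn hβc)
  obtain ⟨K, hK'⟩ := (hX.locallyLipschitz.locallyLipschitzOn).exists_lipschitzOnWith_of_compact hK
  have h1 : t₀ ∈ Ioo a' b' :=
    ⟨lt_of_lt_of_le ha'' (min_le_right _ _), lt_of_le_of_lt (le_max_right _ _) hb'⟩
  have h2 : t ∈ Icc a' b' :=
    ⟨(lt_of_lt_of_le ha'' (min_le_left _ _)).le, (lt_of_le_of_lt (le_max_left _ _) hb').le⟩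
  exact ODE_solution_unique_of_mem_Icc (v := fun _ => X)
    (s := fun _ => α '' Icc a' b' ∪ β '' Icc a' b') (K := K) (fun _ _ => hK') h1 hαc
    (fun s hs => hα s (hsub (Ioo_subset_Icc_self hs)))
    (fun s hs => Or.inl ⟨s, Ioo_subset_Icc_self hs, rfl⟩) hβc
    (fun s hs => hβ s (hsub (Ioo_subset_Icc_self hs)))
    (fun s hs => Or.inr ⟨s, Ioo_subset_Icc_self hs, rfl⟩) h0 h2

omit [FiniteDimensional ℝ V] in
lemma ode_unique {X : V → V} (hX : ContDiff ℝ 1 X) {α β : ℝ → V}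
    (hα : ∀ t, HasDerivAt α (X (α t)) t) (hβ : ∀ t, HasDerivAt β (X (β t)) t)
    (h0 : α 0 = β 0) : α = β := by
  funext t
  have h : (0 : ℝ) ∈ Ioo (-(|t| + 1)) (|t| + 1) := ⟨by have := abs_nonneg t; linarith,
    by have := abs_nonneg t; linarith⟩
  have h' : t ∈ Ioo (-(|t| + 1)) (|t| + 1) := ⟨by have := neg_abs_le t; linarith,
    by have := le_abs_self t; linarith⟩
  exact ode_unique_Ioo hX h (fun s _ => hα s) (fun s _ => hβ s) h0 h'

omit [FiniteDimensional ℝ V] in
lemma ode_glue {X : V → V} (hX : ContDiff ℝ 1 X) (y : V)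
    (h : ∀ T : ℝ, 0 < T → ∃ α : ℝ → V, α 0 = y ∧ ∀ t ∈ Ioo (-T) T, HasDerivAt α (X (α t)) t) :
    ∃ α : ℝ → V, α 0 = y ∧ ∀ t, HasDerivAt α (X (α t)) t := by
  choose! α h0 hα using h
  have key : ∀ S T : ℝ, 0 < S → S ≤ T → EqOn (α S) (α T) (Ioo (-S) S) := by
    intro S T hS hST
    have hT : 0 < T := lt_of_lt_of_le hS hST
    refine ode_unique_Ioo hX (t₀ := 0) ⟨by linarith, hS⟩ (hα S hS)
      (fun t ht => hα T hT t ⟨by linarith [ht.1], by linarith [ht.2]⟩) ?_
    rw [h0 S hS, h0 T hT]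
  refine ⟨fun t => α (|t| + 1) t, h0 _ (by positivity), fun t => ?_⟩
  have hpos : 0 < |t| + 2 := by positivity
  have hev : (fun s => α (|s| + 1) s) =ᶠ[𝓝 t] α (|t| + 2) := by
    have : ∀ᶠ s in 𝓝 t, |s| + 1 < |t| + 2 := by
      have hc : Continuous fun s : ℝ => |s| + 1 := by fun_prop
      exact hc.continuousAt.eventually_lt continuousAt_const (by simp)
    filter_upwards [this] with s hs
    exact key _ _ (by positivity) hs.le ⟨by have := neg_abs_le s; linarith,
      by have := le_abs_self s; linarith⟩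
  have h1 := hα (|t| + 2) hpos t ⟨by have := neg_abs_le t; linarith,
    by have := le_abs_self t; linarith⟩
  have h2 : α (|t| + 1) t = α (|t| + 2) t := hev.eq_of_nhds
  simp only [h2]
  exact h1.congr_of_eventuallyEq hev

end

section

variable {E : Type} [NormedAddCommGroup E] [NormedSpace ℝ E] [FiniteDimensional ℝ E]

/-- Global existence for `x'' = a(x, x')` with a conserved energy controlling the velocity. -/
lemma second_order_global {a : E × E → E} (ha : ContDiff ℝ 1 a) {H : E × E → ℝ}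
    (hH : Differentiable ℝ H) (hcons : ∀ y : E × E, fderiv ℝ H y (y.2, a y) = 0)
    {C : ℝ} (hcoer : ∀ y : E × E, ‖y.2‖ ^ 2 ≤ C * H y) (y₀ : E × E) :
    ∃ α : ℝ → E × E, α 0 = y₀ ∧ ∀ t, HasDerivAt α ((α t).2, a (α t)) t := by
  have hX : ContDiff ℝ 1 (fun y : E × E => (y.2, a y)) := contDiff_snd.prodMk ha
  refine ode_glue hX y₀ (fun T hT => ?_)
  set K : ℝ := √(C * H y₀) with hKdef
  have hK0 : 0 ≤ K := Real.sqrt_nonneg _
  set R : ℝ := ‖y₀.1‖ + K * T + K + 1 with hR
  have hR0 : 0 < R := by positivity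
  let χ : ContDiffBump (0 : E × E) := ⟨R, R + 1, hR0, by linarith⟩
  let Y : E × E → E × E := fun y => χ y • (y.2, a y)
  have hY : ContDiff ℝ 1 Y := χ.contDiff.smul hX
  have hYs : HasCompactSupport Y := χ.hasCompactSupport.smul_right
  obtain ⟨Lip, hLip⟩ := ContDiff.lipschitzWith_of_hasCompactSupport hYs hY (by simp)
  obtain ⟨M, hM⟩ := hY.continuous.bounded_above_of_compact_support hYs
  have hM0 : 0 ≤ M := le_trans (norm_nonneg _) (hM 0)
  have hPL : IsPicardLindelof (fun _ : ℝ => Y) (tmin := -T) (tmax := T)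
      ⟨0, by constructor <;> linarith⟩ y₀ ⟨M * T, by positivity⟩ 0 ⟨M, hM0⟩ Lip := by
    refine ⟨fun _ _ => hLip.lipschitzOnWith, fun _ _ => continuousOn_const,
      fun _ _ x _ => hM x, ?_⟩
    simp only [sub_zero, sub_neg_eq_add, zero_add, max_self, NNReal.coe_zero]
    exact le_rfl
  obtain ⟨α, hα0, hα⟩ := hPL.exists_eq_forall_mem_Icc_hasDerivWithinAt₀
  have hα0' : α 0 = y₀ := hα0
  have hα' : ∀ t ∈ Ioo (-T) T, HasDerivAt α (Y (α t)) t := fun t ht =>
    (hα t (Ioo_subset_Icc_self ht)).hasDerivAt (Icc_mem_nhds ht.1 ht.2)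
  have hE : ∀ t ∈ Ioo (-T) T, H (α t) = H y₀ := by
    intro t ht
    have hd : ∀ s ∈ Ioo (-T) T, HasDerivAt (fun s => H (α s)) 0 s := by
      intro s hs
      have := (hH (α s)).hasFDerivAt.comp_hasDerivAt s (hα' s hs)
      have h2 : fderiv ℝ H (α s) (Y (α s)) = 0 := by
        simp only [Y, map_smul, hcons, smul_zero]
      rw [h2] at this
      exact this
    have := isOpen_Ioo.is_const_of_deriv_eq_zero (𝕜 := ℝ) (f := fun s => H (α s))
      isPreconnected_Ioo (fun s hs => (hd s hs).differentiableAt.differentiableWithinAt)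
      (fun s hs => (hd s hs).deriv) ht (show (0 : ℝ) ∈ Ioo (-T) T from ⟨by linarith, hT⟩)
    rw [this, hα0']
  have hv : ∀ t ∈ Ioo (-T) T, ‖(α t).2‖ ≤ K := by
    intro t ht
    rw [hKdef]
    apply Real.le_sqrt_of_sq_le
    rw [← hE t ht]; exact hcoer _
  have hx : ∀ t ∈ Ioo (-T) T, ‖(α t).1 - y₀.1‖ ≤ K * T := by
    intro t ht
    have hd : ∀ s ∈ Ioo (-T) T, HasDerivWithinAt (fun s => (α s).1) (χ (α s) • (α s).2)
        (Ioo (-T) T) s := fun s hs =>
      ((ContinuousLinearMap.fst ℝ E E).hasFDerivAt.comp_hasDerivAt s (hα' s hs)).hasDerivWithinAt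
    have hb : ∀ s ∈ Ioo (-T) T, ‖χ (α s) • (α s).2‖ ≤ K := by
      intro s hs
      rw [norm_smul, Real.norm_eq_abs, abs_of_nonneg χ.nonneg]
      calc χ (α s) * ‖(α s).2‖ ≤ 1 * K :=
            mul_le_mul χ.le_one (hv s hs) (norm_nonneg _) zero_le_one
        _ = K := one_mul K
    have := (convex_Ioo (-T) T).norm_image_sub_le_of_norm_hasDerivWithin_le hd hb
      (show (0 : ℝ) ∈ Ioo (-T) T from ⟨by linarith, hT⟩) ht
    rw [hα0'] at this
    refine this.trans (mul_le_mul_of_nonneg_left ?_ hK0)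
    rw [sub_zero, Real.norm_eq_abs, abs_le]
    exact ⟨ht.1.le, ht.2.le⟩
  refine ⟨α, hα0', fun t ht => ?_⟩
  have hχ : χ (α t) = 1 := by
    apply χ.one_of_mem_closedBall
    rw [mem_closedBall, dist_zero_right, Prod.norm_def, max_le_iff]
    have h1 := hx t ht
    have h2 := hv t ht
    have h3 : ‖(α t).1‖ ≤ ‖(α t).1 - y₀.1‖ + ‖y₀.1‖ := norm_le_norm_sub_add _ _
    have h4 : 0 ≤ K * T := by positivity
    have h5 := norm_nonneg y₀.1
    constructor
    · change _ ≤ R; linarith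
    · change _ ≤ R; linarith
  have := hα' t ht
  simpa only [Y, hχ, one_smul] using this

end

end Pool.Agent.MP_402458_gt
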